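import Pool.Agent.DD0F47.General

set_option autoImplicit false
set_option linter.unusedSectionVars false
set_option linter.unusedVariables false

open Set Filter Topology

namespace Pool.Agent.DD0F47

open Pool.Agent.Helper451.Reg (Null Rim bump)

variable {X : Type*} [MetricSpace X]

/-- if a point can be approached, it can be reached by a continuum -/
lemma T3_aux [CompactSpace X] (hR : Rim X) {P : Set X} (hP : CC P) {p q : X} (hp : p ∈ P)
    (hq : q ∈ closure P) (hqP : q ∉ P) :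
    ∃ K : Set X, IsCompact K ∧ IsPreconnected K ∧ K ⊆ insert q P ∧ q ∈ K ∧ (K ∩ P).Nonempty := by
  classical
  have hpq : p ≠ q := fun h => hqP (h ▸ hp)
  set d := dist p q with hd
  have hd0 : 0 < d := dist_pos.mpr hpq
  set r : ℕ → ℝ := fun n => d / (n + 1) with hr
  have hr0 : ∀ n, 0 < r n := fun n => by positivity
  have hrd : ∀ n, r n ≤ d := fun n => by
    rw [hr]; exact div_le_self hd0.le (by have : (0:ℝ) ≤ n := n.cast_nonneg; linarith)
  have hranti : ∀ m n, m ≤ n → r n ≤ r m := by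
    intro m n hmn
    apply div_le_div_of_nonneg_left hd0.le (by positivity)
    have : (m : ℝ) ≤ n := by exact_mod_cast hmn
    linarith
  have hrlim : Tendsto r atTop (𝓝 0) := by
    have := tendsto_const_div_atTop_nhds_zero_nat d
    exact (tendsto_add_atTop_iff_nat 1).mpr this |>.congr (fun n => by simp [hr])
  choose W hWo hqW hWb hWf using fun n => hR q (Metric.ball q (r n)) Metric.isOpen_ball
    (Metric.mem_ball_self (hr0 n))
  have hpW : ∀ n, p ∉ W n := by
    intro n hn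
    have := Metric.mem_ball.mp (hWb n hn)
    have := hrd n
    linarith
  obtain ⟨x, hxP, hxq⟩ := mem_closure_iff_seq_limit.mp hq
  -- the relation
  let Rl : ℕ → X → X → Prop := fun n y z => ∃ L : Set X, IsCompact L ∧ IsPreconnected L ∧
    L ⊆ P ∩ Metric.closedBall q (r n) ∧ y ∈ L ∧ z ∈ L
  have hstep : ∀ n, ∀ y ∈ P, y ∈ W n → ∃ f ∈ frontier (W n), Rl n y f := by
    intro n y hyP hyW
    obtain ⟨C, hCP, hCc, hCp, hyC, hpC⟩ := hP y hyP p hp
    obtain ⟨D, hD1, hD2, hD3, hD4, hD5, hD6⟩ := bump hCc hCp (hWo n) hyC hyW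
      (fun h => hpW n (h hpC))
    obtain ⟨f, hfD, hfW⟩ := not_subset.mp hD6
    refine ⟨f, ?_, D, hD1, hD2, ?_, hD5, hfD⟩
    · rw [(hWo n).frontier_eq]; exact ⟨hD4 hfD, hfW⟩
    · intro z hz
      exact ⟨hCP (hD3 hz), (closure_mono (hWb n)).trans Metric.closure_ball_subset_closedBall (hD4 hz)⟩
  let 𝒰 : Ultrafilter ℕ := Ultrafilter.of atTop
  have h𝒰 : (𝒰 : Filter ℕ) ≤ atTop := Ultrafilter.of_le _
  have hf : ∀ n, ∃ f ∈ frontier (W n), ∀ᶠ k in (𝒰 : Filter ℕ), Rl n (x k) f := by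
    intro n
    have h1 : ∀ᶠ k in (𝒰 : Filter ℕ), x k ∈ W n :=
      (hxq.eventually ((hWo n).mem_nhds (hqW n))).filter_mono h𝒰
    have h2 : (⋃ f ∈ frontier (W n), {k | Rl n (x k) f}) ∈ 𝒰 := by
      apply Filter.mem_of_superset h1
      intro k hk
      obtain ⟨f, hf1, hf2⟩ := hstep n (x k) (hxP k) hk
      exact mem_biUnion hf1 hf2
    obtain ⟨f, hf1, hf2⟩ := (Ultrafilter.finite_biUnion_mem_iff (hWf n)).mp h2
    exact ⟨f, hf1, hf2⟩
  choose f hf1 hf2 using hf
  have hL : ∀ n, Rl n (f n) (f (n+1)) := by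
    intro n
    obtain ⟨k, ⟨L1, a1, a2, a3, a4, a5⟩, ⟨L2, b1, b2, b3, b4, b5⟩⟩ := ((hf2 n).and (hf2 (n+1))).exists
    refine ⟨L1 ∪ L2, a1.union b1, a2.union (x k) a4 b4 b2, union_subset a3 ?_, Or.inl a5, Or.inr b5⟩
    refine b3.trans (inter_subset_inter_right _ (Metric.closedBall_subset_closedBall (hranti _ _ n.le_succ)))
  choose L hLc hLp hLs hLf hLf' using hL
  have hLb : ∀ n, L n ⊆ Metric.closedBall q (r n) := fun n => (hLs n).trans inter_subset_right
  have hqcl : q ∈ closure (⋃ n, L n) := by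
    rw [Metric.mem_closure_iff]
    intro ε hε
    obtain ⟨n, hn⟩ := (hrlim.eventually (gt_mem_nhds hε)).exists
    refine ⟨f n, mem_iUnion.mpr ⟨n, hLf n⟩, ?_⟩
    have := Metric.mem_closedBall.mp (hLb n (hLf n))
    rw [dist_comm]; linarith
  refine ⟨insert q (⋃ n, L n), ?_, ?_, ?_, mem_insert _ _, ?_⟩
  · apply IsClosed.isCompact
    rw [← isOpen_compl_iff, isOpen_iff_forall_mem_open]
    intro z hz
    rw [mem_compl_iff, mem_insert_iff, not_or] at hz
    have hzq : 0 < dist z q := dist_pos.mpr hz.1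
    obtain ⟨N, hN⟩ := (hrlim.eventually (gt_mem_nhds hzq)).exists
    refine ⟨(⋃ n ∈ Finset.range N, L n)ᶜ ∩ (Metric.closedBall q (r N))ᶜ, ?_, ?_, ?_⟩
    · rintro y ⟨hy1, hy2⟩ hy
      rcases hy with rfl | hy
      · exact hy2 (Metric.mem_closedBall_self (hr0 N).le)
      · obtain ⟨n, hn⟩ := mem_iUnion.mp hy
        rcases lt_or_ge n N with h | h
        · exact hy1 (mem_biUnion (Finset.mem_range.mpr h) hn)
        · exact hy2 (Metric.closedBall_subset_closedBall (hranti _ _ h) (hLb n hn))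
    · apply IsOpen.inter _ Metric.isClosed_closedBall.isOpen_compl
      rw [isOpen_compl_iff]
      exact isClosed_biUnion_finset (fun n _ => (hLc n).isClosed)
    · refine ⟨?_, ?_⟩
      · intro h
        obtain ⟨n, -, hn⟩ := mem_iUnion₂.mp h
        exact hz.2 (mem_iUnion.mpr ⟨n, hn⟩)
      · intro h
        have := Metric.mem_closedBall.mp h
        linarith
  · have h1 : IsPreconnected (⋃ n, L n) :=
      IsPreconnected.iUnion_of_chain hLp (fun n => ⟨f (n+1), hLf' n, hLf (n+1)⟩)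
    exact h1.subset_closure (subset_insert _ _) (insert_subset hqcl subset_closure)
  · exact insert_subset_insert (iUnion_subset fun n => (hLs n).trans inter_subset_left)
  · exact ⟨f 0, mem_insert_of_mem _ (mem_iUnion.mpr ⟨0, hLf 0⟩), (hLs 0 (hLf 0)).1⟩

/-- closure lemma -/
lemma T3 [CompactSpace X] (hR : Rim X) {P S : Set X} (hP : CC P) (hPS : P ⊆ S)
    (hS : S ⊆ closure P) : CC S := by
  rcases P.eq_empty_or_nonempty with rfl | ⟨p, hp⟩
  · rw [closure_empty] at hS
    intro x hx; exact absurd (hS hx) (notMem_empty _)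
  have key : ∀ x ∈ S, ∃ K ⊆ S, IsCompact K ∧ IsPreconnected K ∧ x ∈ K ∧ p ∈ K := by
    intro x hx
    by_cases hxP : x ∈ P
    · obtain ⟨K, h1, h2, h3, h4, h5⟩ := hP x hxP p hp
      exact ⟨K, h1.trans hPS, h2, h3, h4, h5⟩
    · obtain ⟨K, h1, h2, h3, h4, ⟨y, hyK, hyP⟩⟩ := T3_aux hR hP hp (hS hx) hxP
      obtain ⟨K', k1, k2, k3, k4, k5⟩ := hP y hyP p hp
      exact ⟨K ∪ K', union_subset (h3.trans (insert_subset hx hPS)) (k1.trans hPS), h1.union k2,
        h2.union y hyK k4 k3, Or.inl h4, Or.inr k5⟩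
  intro x hx y hy
  obtain ⟨K, h1, h2, h3, h4, h5⟩ := key x hx
  obtain ⟨K', k1, k2, k3, k4, k5⟩ := key y hy
  exact ⟨K ∪ K', union_subset h1 k1, h2.union k2, h3.union p h5 k5 k3, Or.inl h4, Or.inr k4⟩

end Pool.Agent.DD0F47
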