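import Pool.Agent.Helper451.Reg.Fin
import Pool.Agent.Helper166.Continua

set_option autoImplicit false
set_option linter.unusedSectionVars false
set_option linter.unusedVariables false

open Set Filter Topology

namespace Pool.Agent.DD0F47

open Pool.Agent.Helper451.Reg (Null Rim bump)

variable {X : Type*} [MetricSpace X]

/-- continuumwise connected -/
def CC (S : Set X) : Prop :=
  ∀ x ∈ S, ∀ y ∈ S, ∃ K ⊆ S, IsCompact K ∧ IsPreconnected K ∧ x ∈ K ∧ y ∈ K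

lemma CC.preconn {S : Set X} (h : CC S) : IsPreconnected S := by
  rcases S.eq_empty_or_nonempty with rfl | ⟨x, hx⟩
  · exact isPreconnected_empty
  · apply isPreconnected_of_forall x
    intro y hy
    obtain ⟨K, hK, -, hKp, hxK, hyK⟩ := h x hx y hy
    exact ⟨K, hK, hxK, hyK, hKp⟩

/-- connected subsets of a rim-finite space are locally connected -/
lemma T2 (hR : Rim X) {S : Set X} (hS : IsPreconnected S) {x : X} (hx : x ∈ S) {U : Set X}
    (hU : IsOpen U) (hxU : x ∈ U) :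
    ∃ V : Set X, IsOpen V ∧ x ∈ V ∧ S ∩ V ⊆ connectedComponentIn (S ∩ U) x := by
  classical
  obtain ⟨r, hr, hball⟩ := Metric.isOpen_iff.mp hU x hxU
  obtain ⟨W, hW, hxW, hWb, hF⟩ := hR x (Metric.ball x (r / 2)) Metric.isOpen_ball
    (Metric.mem_ball_self (by linarith))
  have hWU : closure W ⊆ U := (closure_mono hWb).trans
    (Metric.closure_ball_subset_closedBall.trans
      ((Metric.closedBall_subset_ball (by linarith)).trans hball))
  set S' := S ∩ closure W with hS'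
  have hxS' : x ∈ S' := ⟨hx, subset_closure hxW⟩
  let P : ℕ → Prop := fun n => ∃ O1 O2 : Set X, IsOpen O1 ∧ IsOpen O2 ∧ S' ⊆ O1 ∪ O2 ∧
    S' ∩ (O1 ∩ O2) = ∅ ∧ x ∈ O1 ∧ (S' ∩ O1 ∩ frontier W).ncard = n
  have hP : ∃ n, P n := ⟨_, univ, ∅, isOpen_univ, isOpen_empty, by simp, by simp, mem_univ _, rfl⟩
  obtain ⟨O1, O2, hO1, hO2, hcov, hdis, hxO1, hcard⟩ := Nat.find_spec hP
  have hmin : ∀ m, P m → (S' ∩ O1 ∩ frontier W).ncard ≤ m := by
    intro m hm; rw [hcard]; exact Nat.find_min' hP hm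
  have hdis' : ∀ y ∈ S', y ∈ O1 → y ∈ O2 → False := by
    intro y h1 h2 h3
    have : y ∈ S' ∩ (O1 ∩ O2) := ⟨h1, h2, h3⟩
    rw [hdis] at this; exact this
  have key : ∀ u v : Set X, IsOpen u → IsOpen v → S' ∩ O1 ⊆ u ∪ v → x ∈ u →
      (S' ∩ O1 ∩ v).Nonempty → (S' ∩ O1 ∩ (u ∩ v)).Nonempty := by
    intro u v hu hv huv hxu hne
    by_contra hno
    have hno' : ∀ y ∈ S', y ∈ O1 → y ∈ u → y ∈ v → False := by
      intro y h1 h2 h3 h4
      exact hno ⟨y, ⟨h1, h2⟩, h3, h4⟩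
    have h1 : P (S' ∩ (O1 ∩ u) ∩ frontier W).ncard := by
      refine ⟨O1 ∩ u, O2 ∪ (O1 ∩ v), hO1.inter hu, hO2.union (hO1.inter hv), ?_, ?_, ⟨hxO1, hxu⟩, rfl⟩
      · intro y hy
        rcases hcov hy with h | h
        · rcases huv ⟨hy, h⟩ with h' | h'
          · exact Or.inl ⟨h, h'⟩
          · exact Or.inr (Or.inr ⟨h, h'⟩)
        · exact Or.inr (Or.inl h)
      · ext y
        simp only [mem_inter_iff, mem_union, mem_empty_iff_false, iff_false]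
        rintro ⟨h1, ⟨h2, h3⟩, (h4 | h4)⟩
        · exact hdis' y h1 h2 h4
        · exact hno' y h1 h2 h3 h4.2
    have h2 := hmin _ h1
    have hfin : (S' ∩ O1 ∩ frontier W).Finite := hF.subset inter_subset_right
    have hsub : S' ∩ (O1 ∩ u) ∩ frontier W ⊆ S' ∩ O1 ∩ frontier W := by
      rintro y ⟨⟨h1, h2, h3⟩, h4⟩; exact ⟨⟨h1, h2⟩, h4⟩
    have heq := Set.eq_of_subset_of_ncard_le hsub h2 hfin
    have hvF : ∀ y ∈ S', y ∈ O1 → y ∈ v → y ∉ frontier W := by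
      intro y h1 h2 h3 h4
      have : y ∈ S' ∩ O1 ∩ frontier W := ⟨⟨h1, h2⟩, h4⟩
      rw [← heq] at this
      exact hno' y h1 h2 this.1.2.2 h3
    have hvW : ∀ y ∈ S', y ∈ O1 → y ∈ v → y ∈ W := by
      intro y h1 h2 h3
      by_contra h4
      apply hvF y h1 h2 h3
      rw [hW.frontier_eq]
      exact ⟨h1.2, h4⟩
    obtain ⟨z, hz1, hz2, hz3⟩ := hS (O1 ∩ v ∩ W) (O2 ∪ (O1 ∩ u) ∪ (closure W)ᶜ)
      ((hO1.inter hv).inter hW) ((hO2.union (hO1.inter hu)).union isClosed_closure.isOpen_compl)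
      (by
        intro y hy
        by_cases hyW : y ∈ closure W
        · rcases hcov ⟨hy, hyW⟩ with h | h
          · rcases huv ⟨⟨hy, hyW⟩, h⟩ with h' | h'
            · exact Or.inr (Or.inl (Or.inr ⟨h, h'⟩))
            · exact Or.inl ⟨⟨h, h'⟩, hvW y ⟨hy, hyW⟩ h h'⟩
          · exact Or.inr (Or.inl (Or.inl h))
        · exact Or.inr (Or.inr hyW))
      (by
        obtain ⟨y, ⟨hy1, hy2⟩, hy3⟩ := hne
        exact ⟨y, hy1.1, ⟨hy2, hy3⟩, hvW y hy1 hy2 hy3⟩)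
      ⟨x, hx, Or.inl (Or.inr ⟨hxO1, hxu⟩)⟩
    have hzS' : z ∈ S' := ⟨hz1, subset_closure hz2.2⟩
    rcases hz3 with (h | h) | h
    · exact hdis' z hzS' hz2.1.1 h
    · exact hno' z hzS' hz2.1.1 h.2 hz2.1.2
    · exact h (subset_closure hz2.2)
  have hpre : IsPreconnected (S' ∩ O1) := by
    intro u v hu hv huv hnu hnv
    rcases huv ⟨hxS', hxO1⟩ with h | h
    · exact key u v hu hv huv h hnv
    · have := key v u hv hu (by rwa [union_comm]) h hnu
      rwa [inter_comm v u] at this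
  refine ⟨O1 ∩ W, hO1.inter hW, ⟨hxO1, hxW⟩, ?_⟩
  have h1 : S' ∩ O1 ⊆ connectedComponentIn (S ∩ U) x :=
    hpre.subset_connectedComponentIn ⟨hxS', hxO1⟩
      (fun y hy => ⟨hy.1.1, hWU hy.1.2⟩)
  rintro y ⟨hy1, hy2, hy3⟩
  exact h1 ⟨⟨hy1, subset_closure hy3⟩, hy2⟩

/-- components of relatively open subsets of a connected set are relatively open -/
lemma comp_open (hR : Rim X) {S : Set X} (hS : IsPreconnected S) {U : Set X} (hU : IsOpen U)
    (x : X) : ∃ V : Set X, IsOpen V ∧ V ⊆ U ∧ connectedComponentIn (S ∩ U) x = S ∩ V := by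
  classical
  have h : ∀ y ∈ connectedComponentIn (S ∩ U) x, ∃ V : Set X, IsOpen V ∧ y ∈ V ∧ V ⊆ U ∧
      S ∩ V ⊆ connectedComponentIn (S ∩ U) x := by
    intro y hy
    have hy' := connectedComponentIn_subset _ _ hy
    obtain ⟨V, h1, h2, h3⟩ := T2 hR hS hy'.1 hU hy'.2
    rw [← connectedComponentIn_eq hy] at h3
    exact ⟨V ∩ U, h1.inter hU, ⟨h2, hy'.2⟩, inter_subset_right,
      (inter_subset_inter_right _ inter_subset_left).trans h3⟩
  choose! V hV1 hV2 hV3 hV4 using h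
  refine ⟨⋃ y ∈ connectedComponentIn (S ∩ U) x, V y, isOpen_biUnion hV1, iUnion₂_subset hV3, ?_⟩
  apply Subset.antisymm
  · intro y hy
    exact ⟨(connectedComponentIn_subset _ _ hy).1, mem_biUnion hy (hV2 y hy)⟩
  · rintro y ⟨hy1, hy2⟩
    rw [mem_iUnion₂] at hy2
    obtain ⟨z, hz, hyz⟩ := hy2
    exact hV4 z hz ⟨hy1, hyz⟩

/-- one refinement step -/
lemma T5_step (hR : Rim X) {G : Set X} (hG : IsPreconnected G) {V O : Set X} (hV : IsOpen V)
    (hO : IsOpen O) (hGO : G ⊆ O) {p q : X} (hp : p ∈ G) (hq : q ∈ G) (hpV : p ∈ V) (hqV : q ∈ V)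
    (hGV : IsPreconnected (G ∩ V)) :
    ∃ V' : Set X, IsOpen V' ∧ p ∈ V' ∧ q ∈ V' ∧ V' ⊆ V ∧ IsPreconnected (G ∩ V') ∧
      closure (G ∩ V') ⊆ O := by
  classical
  have hloc : ∀ x ∈ G ∩ V, ∃ V' : Set X, IsOpen V' ∧ x ∈ V' ∧ V' ⊆ V ∧ IsPreconnected (G ∩ V') ∧
      closure (G ∩ V') ⊆ O := by
    intro x hx
    obtain ⟨r, hr, hball⟩ := Metric.isOpen_iff.mp hO x (hGO hx.1)
    obtain ⟨V', h1, h2, h3⟩ := comp_open hR hG (hV.inter (Metric.isOpen_ball (x := x) (ε := r / 2))) x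
    have hxc : x ∈ connectedComponentIn (G ∩ (V ∩ Metric.ball x (r / 2))) x :=
      mem_connectedComponentIn ⟨hx.1, hx.2, Metric.mem_ball_self (by linarith)⟩
    refine ⟨V', h1, ?_, h2.trans inter_subset_left, ?_, ?_⟩
    · rw [h3] at hxc; exact hxc.2
    · rw [← h3]; exact isPreconnected_connectedComponentIn
    · refine (closure_mono (inter_subset_right.trans (h2.trans inter_subset_right))).trans
        (Metric.closure_ball_subset_closedBall.trans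
          ((Metric.closedBall_subset_ball (by linarith)).trans hball))
  set T : Set X := {y | ∃ V' : Set X, IsOpen V' ∧ p ∈ V' ∧ y ∈ V' ∧ V' ⊆ V ∧
    IsPreconnected (G ∩ V') ∧ closure (G ∩ V') ⊆ O} with hT
  have hTo : IsOpen T := by
    rw [isOpen_iff_forall_mem_open]
    rintro y ⟨V', h1, h2, h3, h4, h5, h6⟩
    exact ⟨V', fun z hz => ⟨V', h1, h2, hz, h4, h5, h6⟩, h1, h3⟩
  choose! N hN1 hN2 hN3 hN4 hN5 using hloc
  set T' : Set X := ⋃ x ∈ (G ∩ V) \ T, N x with hT'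
  have hT'o : IsOpen T' := isOpen_biUnion fun x hx => hN1 x hx.1
  suffices h : q ∈ T by
    obtain ⟨V', h1, h2, h3, h4, h5, h6⟩ := h
    exact ⟨V', h1, h2, h3, h4, h5, h6⟩
  by_contra hqT
  have hpT : p ∈ T := ⟨N p, hN1 p ⟨hp, hpV⟩, hN2 p ⟨hp, hpV⟩, hN2 p ⟨hp, hpV⟩, hN3 p ⟨hp, hpV⟩,
    hN4 p ⟨hp, hpV⟩, hN5 p ⟨hp, hpV⟩⟩
  obtain ⟨z, hz1, hz2, hz3⟩ := hGV T T' hTo hT'o (by
      intro y hy
      by_cases h : y ∈ T
      · exact Or.inl h
      · exact Or.inr (mem_biUnion (show y ∈ (G ∩ V) \ T from ⟨hy, h⟩) (hN2 y hy)))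
    ⟨p, ⟨hp, hpV⟩, hpT⟩
    ⟨q, ⟨hq, hqV⟩, mem_biUnion (show q ∈ (G ∩ V) \ T from ⟨⟨hq, hqV⟩, hqT⟩) (hN2 q ⟨hq, hqV⟩)⟩
  rw [hT', mem_iUnion₂] at hz3
  obtain ⟨x, ⟨hx1, hx2⟩, hzx⟩ := hz3
  obtain ⟨V', h1, h2, h3, h4, h5, h6⟩ := hz2
  apply hx2
  have heq : G ∩ (V' ∪ N x) = (G ∩ V') ∪ (G ∩ N x) := inter_union_distrib_left _ _ _
  refine ⟨V' ∪ N x, h1.union (hN1 x hx1), Or.inl h2, Or.inr (hN2 x hx1),
    union_subset h4 (hN3 x hx1), ?_, ?_⟩
  · rw [heq]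
    exact h5.union z ⟨hz1.1, h3⟩ ⟨hz1.1, hzx⟩ (hN4 x hx1)
  · rw [heq, closure_union]
    exact union_subset h6 (hN5 x hx1)

/-- connected `G_δ` subsets of a compact rim-finite space are continuumwise connected -/
theorem T5 [CompactSpace X] (hR : Rim X) {G : Set X} (hG : IsPreconnected G) {O : ℕ → Set X}
    (hO : ∀ n, IsOpen (O n)) (hGO : G = ⋂ n, O n) : CC G := by
  classical
  intro p hp q hq
  have hsub : ∀ n, G ⊆ O n := by
    intro n; rw [hGO]; exact iInter_subset _ n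
  let St := {V : Set X // IsOpen V ∧ p ∈ V ∧ q ∈ V ∧ IsPreconnected (G ∩ V)}
  have hnext : ∀ (n : ℕ) (s : St), ∃ s' : St, s'.1 ⊆ s.1 ∧ closure (G ∩ s'.1) ⊆ O n := by
    intro n s
    obtain ⟨V', h1, h2, h3, h4, h5, h6⟩ := T5_step hR hG s.2.1 (hO n) (hsub n) hp hq s.2.2.1
      s.2.2.2.1 s.2.2.2.2
    exact ⟨⟨V', h1, h2, h3, h5⟩, h4, h6⟩
  choose nx hnx1 hnx2 using hnext
  let s : ℕ → St := fun n => Nat.rec ⟨univ, isOpen_univ, mem_univ _, mem_univ _, by simpa using hG⟩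
    (fun n s => nx n s) n
  have hs : ∀ n, s (n+1) = nx n (s n) := fun n => rfl
  have hanti : Antitone (fun n => closure (G ∩ (s n).1)) := by
    apply antitone_nat_of_succ_le
    intro n
    apply closure_mono
    apply inter_subset_inter_right
    rw [hs]; exact hnx1 n (s n)
  refine ⟨⋂ n, closure (G ∩ (s n).1), ?_, ?_, ?_, ?_, ?_⟩
  · refine Subset.trans ?_ hGO.ge
    apply subset_iInter
    intro n
    refine (iInter_subset _ (n+1)).trans ?_
    rw [hs]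
    exact hnx2 n (s n)
  · exact (isClosed_iInter fun n => isClosed_closure).isCompact
  · exact Pool.Agent.Helper166.Continua.iInter_antitone_isPreconnected _ hanti
      (fun n => isClosed_closure) (fun n => (s n).2.2.2.2.closure)
  · exact mem_iInter.mpr fun n => subset_closure ⟨hp, (s n).2.2.1⟩
  · exact mem_iInter.mpr fun n => subset_closure ⟨hq, (s n).2.2.2.1⟩

end Pool.Agent.DD0F47
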